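import Mathlib
import Pool.Agent.Helper111.EN.NS

/-! # Finitely generated torsion-free nilpotent groups are poly-infinite-cyclic -/

set_option autoImplicit false
set_option linter.all false

noncomputable section

namespace Pool.Agent.L0h66.NL

open scoped commutatorElement

/-- torsion-free -/
def TF (G : Type) [Group G] : Prop := ∀ g : G, ∀ k : ℕ, 0 < k → g ^ k = 1 → g = 1

/-- iterated commutators -/
def cm {G : Type} [Group G] : G → List G → G
  | x, [] => x
  | x, y :: l => cm ⁅x, y⁆ l

theorem mem_iff {G : Type} [Group G] (c : ℕ) : ∀ x : G,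
    x ∈ Subgroup.upperCentralSeries G c ↔ ∀ l : List G, l.length = c → cm x l = 1 := by
  induction c with
  | zero =>
    intro x
    rw [Subgroup.upperCentralSeries_zero, Subgroup.mem_bot]
    constructor
    · intro h l hl
      rw [List.length_eq_zero_iff] at hl
      rw [hl]
      exact h
    · intro h
      exact h [] rfl
  | succ c ih =>
    intro x
    rw [Subgroup.mem_upperCentralSeries_succ_iff]
    constructor
    · intro h l hl
      cases l with
      | nil => simp at hl
      | cons y l => exact (ih _).1 (h y) l (by simpa using hl)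
    · intro h y
      exact (ih _).2 fun l hl => h (y :: l) (by simp [hl])

theorem map_cm {G H : Type} [Group G] [Group H] (f : G →* H) (l : List G) : ∀ x : G,
    f (cm x l) = cm (f x) (l.map f) := by
  induction l with
  | nil => intro x; rfl
  | cons y l ih =>
    intro x
    show f (cm ⁅x, y⁆ l) = cm ⁅f x, f y⁆ (l.map f)
    rw [ih, map_commutatorElement]

/-- subgroups (and groups with an injective homomorphism) -/
theorem ucs_of_injective {G H : Type} [Group G] [Group H] (f : G →* H)
    (hf : Function.Injective f) {c : ℕ} (h : Subgroup.upperCentralSeries H c = ⊤) :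
    Subgroup.upperCentralSeries G c = ⊤ := by
  rw [eq_top_iff]
  intro x _
  rw [mem_iff]
  intro l hl
  apply hf
  rw [map_cm, map_one]
  have h1 : f x ∈ Subgroup.upperCentralSeries H c := by rw [h]; exact Subgroup.mem_top _
  exact (mem_iff c _).1 h1 _ (by rw [List.length_map, hl])

/-- the factors of the upper central series are torsion-free -/
theorem root {G : Type} [Group G] (hG : TF G) (i : ℕ) : ∀ x ∈ Subgroup.upperCentralSeries G (i + 1),
    ∀ k : ℕ, 0 < k → x ^ k ∈ Subgroup.upperCentralSeries G i → x ∈ Subgroup.upperCentralSeries G i := by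
  induction i with
  | zero =>
    intro x _ k hk h
    rw [Subgroup.upperCentralSeries_zero, Subgroup.mem_bot] at h ⊢
    exact hG x k hk h
  | succ i ih =>
    intro x hx k hk h
    rw [Subgroup.mem_upperCentralSeries_succ_iff] at hx h ⊢
    intro y
    refine ih _ (hx y) k hk ?_
    -- modulo `U i` the commutator is central
    have key : ∀ j : ℕ, (⁅x, y⁆ ^ j)⁻¹ * ⁅x ^ j, y⁆ ∈ Subgroup.upperCentralSeries G i := by
      intro j
      have hq : (QuotientGroup.mk' (Subgroup.upperCentralSeries G i)) ((⁅x, y⁆ ^ j)⁻¹ * ⁅x ^ j, y⁆) = 1 := by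
        rw [map_mul, map_inv, map_pow, map_commutatorElement, map_commutatorElement, map_pow]
        generalize hX : (QuotientGroup.mk' (Subgroup.upperCentralSeries G i)) x = X
        generalize hY : (QuotientGroup.mk' (Subgroup.upperCentralSeries G i)) y = Y
        have hcen : ∀ Z, Commute ⁅X, Y⁆ Z := by
          intro Z
          obtain ⟨z, rfl⟩ := QuotientGroup.mk'_surjective (Subgroup.upperCentralSeries G i) Z
          have h1 := Subgroup.mem_upperCentralSeries_succ_iff.1 (hx y) z
          have h2 : (QuotientGroup.mk' (Subgroup.upperCentralSeries G i)) ⁅⁅x, y⁆, z⁆ = 1 := by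
            rw [QuotientGroup.mk'_apply, QuotientGroup.eq_one_iff]
            exact h1
          rw [map_commutatorElement, map_commutatorElement, hX, hY] at h2
          exact commutatorElement_eq_one_iff_commute.1 h2
        have h3 : ∀ j : ℕ, X ^ j * Y = ⁅X, Y⁆ ^ j * Y * X ^ j := by
          intro j
          induction j with
          | zero => simp
          | succ j ihj =>
            have h4 : X * Y = ⁅X, Y⁆ * Y * X := by
              rw [commutatorElement_def]; group
            have h5 : X * ⁅X, Y⁆ ^ j = ⁅X, Y⁆ ^ j * X := ((hcen X).pow_left j).symm.eq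
            calc X ^ (j + 1) * Y = X * (X ^ j * Y) := by rw [pow_succ', mul_assoc]
              _ = X * (⁅X, Y⁆ ^ j * Y * X ^ j) := by rw [ihj]
              _ = (X * ⁅X, Y⁆ ^ j) * Y * X ^ j := by simp only [mul_assoc]
              _ = ⁅X, Y⁆ ^ j * (X * Y) * X ^ j := by rw [h5]; simp only [mul_assoc]
              _ = ⁅X, Y⁆ ^ j * (⁅X, Y⁆ * Y * X) * X ^ j := by rw [h4]
              _ = ⁅X, Y⁆ ^ (j + 1) * Y * X ^ (j + 1) := by
                rw [pow_succ ⁅X, Y⁆, pow_succ' X]; simp only [mul_assoc]
        have h6 : ⁅X ^ j, Y⁆ = ⁅X, Y⁆ ^ j := by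
          rw [commutatorElement_def, h3 j]
          group
        rw [h6]
        group
      rw [QuotientGroup.mk'_apply, QuotientGroup.eq_one_iff] at hq
      exact hq
    have h7 := key k
    have h8 := (Subgroup.upperCentralSeries G i).mul_mem (h y) ((Subgroup.upperCentralSeries G i).inv_mem h7)
    have h9 : ⁅x ^ k, y⁆ * ((⁅x, y⁆ ^ k)⁻¹ * ⁅x ^ k, y⁆)⁻¹ = ⁅x, y⁆ ^ k := by group
    rw [h9] at h8
    exact h8

/-- the quotient by the centre is torsion-free -/
theorem tf_quot {G : Type} [Group G] (hG : TF G) {n : ℕ} (hn : Subgroup.upperCentralSeries G n = ⊤) :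
    TF (G ⧸ Subgroup.center G) := by
  intro q k hk hq
  obtain ⟨x, rfl⟩ := QuotientGroup.mk_surjective q
  have h1 : x ^ k ∈ Subgroup.upperCentralSeries G 1 := by
    rw [Subgroup.upperCentralSeries_one, ← QuotientGroup.eq_one_iff]
    exact hq
  have h2 : ∀ j, x ∈ Subgroup.upperCentralSeries G (j + 1) → x ∈ Subgroup.upperCentralSeries G 1 := by
    intro j
    induction j with
    | zero => exact fun h => h
    | succ j ih =>
      intro h
      apply ih
      exact root hG (j + 1) x h k hk (Subgroup.upperCentralSeries_mono G (by omega) h1)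
  have h3 : x ∈ Subgroup.upperCentralSeries G 1 := by
    cases n with
    | zero =>
      have : x ∈ Subgroup.upperCentralSeries G 0 := by rw [hn]; exact Subgroup.mem_top _
      exact Subgroup.upperCentralSeries_mono G (by omega) this
    | succ n => exact h2 n (by rw [hn]; exact Subgroup.mem_top _)
  rw [Subgroup.upperCentralSeries_one] at h3
  exact (QuotientGroup.eq_one_iff x).2 h3

/-- poly-infinite-cyclic groups -/
inductive PolyZ : ∀ (G : Type) [Group G], Prop
  | triv (G : Type) [Group G] (h : Subsingleton G) : PolyZ G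
  | ext (G : Type) [Group G] (φ : G →* Multiplicative ℤ) (hφ : Function.Surjective φ)
      (h : PolyZ φ.ker) : PolyZ G

theorem PolyZ.iso {G : Type} [Group G] (h : PolyZ G) : ∀ (H : Type) [Group H], (G ≃* H) →
    PolyZ H := by
  induction h with
  | triv G h =>
    intro H _ e
    exact PolyZ.triv H e.symm.injective.subsingleton
  | ext G φ hφ h ih =>
    intro H _ e
    refine PolyZ.ext H (φ.comp e.symm.toMonoidHom) (hφ.comp e.symm.surjective) (ih _ ?_)
    exact
      { toFun := fun x => ⟨e x.1, by
          rw [MonoidHom.mem_ker]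
          show φ (e.symm (e x.1)) = 1
          rw [MulEquiv.symm_apply_apply]
          exact x.2⟩
        invFun := fun y => ⟨e.symm y.1, y.2⟩
        left_inv := fun x => Subtype.ext (e.symm_apply_apply _)
        right_inv := fun y => Subtype.ext (e.apply_symm_apply _)
        map_mul' := fun x y => Subtype.ext (map_mul e _ _) }

/-- extensions -/
theorem PolyZ.extn {Q : Type} [Group Q] (h : PolyZ Q) : ∀ (G : Type) [Group G] (ψ : G →* Q),
    Function.Surjective ψ → PolyZ ψ.ker → PolyZ G := by
  induction h with
  | triv Q h =>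
    intro G _ ψ hψ hK
    refine hK.iso G ?_
    have h1 : ψ.ker = ⊤ := by
      rw [eq_top_iff]
      intro x _
      exact Subsingleton.elim _ _
    exact (MulEquiv.subgroupCongr h1).trans Subgroup.topEquiv
  | ext Q φ hφ h ih =>
    intro G _ ψ hψ hK
    refine PolyZ.ext G (φ.comp ψ) (hφ.comp hψ) ?_
    let ψ' : (φ.comp ψ).ker →* φ.ker :=
      { toFun := fun x => ⟨ψ x.1, x.2⟩
        map_one' := Subtype.ext (map_one ψ)
        map_mul' := fun x y => Subtype.ext (map_mul ψ _ _) }
    refine ih _ ψ' ?_ (hK.iso _ ?_)
    · rintro ⟨y, hy⟩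
      obtain ⟨x, rfl⟩ := hψ y
      exact ⟨⟨x, hy⟩, rfl⟩
    · exact
        { toFun := fun x => ⟨⟨x.1, by
              rw [MonoidHom.mem_ker]
              show φ (ψ x.1) = 1
              rw [x.2, map_one]⟩, Subtype.ext x.2⟩
          invFun := fun y => ⟨y.1.1, congrArg Subtype.val y.2⟩
          left_inv := fun x => rfl
          right_inv := fun y => rfl
          map_mul' := fun x y => rfl }

/-- free abelian groups -/
theorem polyZ_pow (r : ℕ) : PolyZ (Fin r → Multiplicative ℤ) := by
  induction r with
  | zero => exact PolyZ.triv _ inferInstance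
  | succ r ih =>
    refine PolyZ.ext _ (Pi.evalMonoidHom (fun _ : Fin (r + 1) => Multiplicative ℤ) 0)
      (fun z => ⟨fun _ => z, rfl⟩) (ih.iso _ ?_)
    exact
      { toFun := fun v => ⟨Fin.cons 1 v, rfl⟩
        invFun := fun w i => w.1 i.succ
        left_inv := fun v => rfl
        right_inv := fun w => Subtype.ext (by
          funext i
          refine Fin.cases ?_ (fun j => ?_) i
          · exact (show w.1 0 = 1 from w.2).symm
          · rfl)
        map_mul' := fun v w => Subtype.ext (by
          funext i
          refine Fin.cases ?_ (fun j => ?_) i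
          · rfl
          · rfl) }

end Pool.Agent.L0h66.NL
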