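import Pool.Agent.L0h66.NL.Nil
import Pool.Agent.L0h39.RG.RGA
import Pool.Agent.L0h78.TW.TKL

/-! # Group rings of finitely generated torsion-free nilpotent groups over regular rings -/

set_option autoImplicit false
set_option linter.all false

noncomputable section

namespace Pool.Agent.L0h66.NL

open scoped commutatorElement
open Pool.Agent.L0h7.RG Pool.Agent.L0h7.TW
open Pool.Agent.L0h78.TW (word)
open Pool.Agent.Helper111.EN.NSc (NS NS_top_of_nilpotent_fg)

theorem polyZ_ab (P : Type) [hG : Group P] (hcomm : ∀ a b : P, a * b = b * a) (htf : TF P)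
    (hfg : Group.FG P) : PolyZ P := by
  let _ : CommGroup P := { hG with mul_comm := hcomm }
  obtain ⟨r, ⟨e⟩⟩ := Pool.Agent.L0h39.RG.exists_iso P htf hfg
  exact (polyZ_pow r).iso P e.symm

theorem polyZ_nil (c : ℕ) : ∀ (G : Type) [Group G], Group.FG G → TF G →
    Subgroup.upperCentralSeries G c = ⊤ → PolyZ G := by
  induction c with
  | zero =>
    intro G _ _ _ h
    rw [Subgroup.upperCentralSeries_zero] at h
    refine PolyZ.triv G ⟨fun a b => ?_⟩
    have ha : a ∈ (⊥ : Subgroup G) := by rw [h]; exact Subgroup.mem_top _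
    have hb : b ∈ (⊥ : Subgroup G) := by rw [h]; exact Subgroup.mem_top _
    rw [Subgroup.mem_bot] at ha hb
    rw [ha, hb]
  | succ c ih =>
    intro G _ hfg hG h
    have hQ : Subgroup.upperCentralSeries (G ⧸ Subgroup.center G) c = ⊤ := by
      have h1 := comap_upperCentralSeries_quotient_center (G := G) c
      rw [Nat.succ_eq_add_one, h] at h1
      rw [eq_top_iff]
      intro q _
      obtain ⟨x, rfl⟩ := QuotientGroup.mk'_surjective (Subgroup.center G) q
      have h2 : x ∈ (Subgroup.upperCentralSeries (G ⧸ Subgroup.center G) c).comap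
          (QuotientGroup.mk' (Subgroup.center G)) := by rw [h1]; exact Subgroup.mem_top _
      exact h2
    have h3 := ih (G ⧸ Subgroup.center G) inferInstance (tf_quot hG h) hQ
    have hker : (QuotientGroup.mk' (Subgroup.center G)).ker = Subgroup.center G :=
      QuotientGroup.ker_mk' _
    refine h3.extn G (QuotientGroup.mk' (Subgroup.center G)) (QuotientGroup.mk'_surjective _) ?_
    refine PolyZ.iso ?_ _ (MulEquiv.subgroupCongr hker.symm)
    have hnil : Group.IsNilpotent G := ⟨⟨c + 1, h⟩⟩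
    obtain ⟨m, hm⟩ := nilpotent_iff_lowerCentralSeries.1 hnil
    have hNS : NS (⊤ : Subgroup G) := NS_top_of_nilpotent_fg m G hfg
      (le_bot_iff.1 (hm ▸ Subgroup.lowerCentralSeries_antitone _ (Nat.le_succ m)))
    refine polyZ_ab (Subgroup.center G) ?_ ?_ ?_
    · intro a b
      exact Subtype.ext ((Subgroup.mem_center_iff.1 b.2 a.1))
    · intro g k hk hg
      apply Subtype.ext
      apply hG (g : G) k hk
      have := congrArg (Subtype.val) hg
      simpa using this
    · exact (Group.fg_iff_subgroup_fg _).2 (hNS _ le_top)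

section ext

variable {G : Type} [Group G] (φ : G →* Multiplicative ℤ) (t : G)

/-- the action on the kernel -/
def act : FreeGroup (Fin 1) →* MulAut φ.ker :=
  (MulAut.conjNormal (H := φ.ker)).comp (FreeGroup.lift fun _ : Fin 1 => t)

/-- the homomorphism from the semidirect product -/
def hom : φ.ker ⋊[act φ t] FreeGroup (Fin 1) →* G :=
  SemidirectProduct.lift φ.ker.subtype (FreeGroup.lift fun _ : Fin 1 => t) (by
    intro w
    refine MonoidHom.ext fun n => ?_
    show ((MulAut.conjNormal (FreeGroup.lift (fun _ : Fin 1 => t) w) n : φ.ker) : G) = _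
    rw [MulAut.conjNormal_apply]
    rfl)

theorem hom_apply (n : φ.ker) (w : FreeGroup (Fin 1)) :
    hom φ t ⟨n, w⟩ = n.1 * FreeGroup.lift (fun _ : Fin 1 => t) w := rfl

theorem hom_bij (ht : φ t = Multiplicative.ofAdd 1) : Function.Bijective (hom φ t) := by
  have hz : ∀ j : ℤ, φ (t ^ j) = Multiplicative.ofAdd j := by
    intro j
    rw [map_zpow, ht, ← ofAdd_zsmul, smul_eq_mul, mul_one]
  constructor
  · rw [injective_iff_map_eq_one]
    rintro ⟨n, w⟩ h
    rw [hom_apply] at h
    obtain ⟨j, hj⟩ := word w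
    rw [hj, map_zpow, FreeGroup.lift_apply_of] at h
    have h1 := congrArg φ h
    rw [map_mul, n.2, one_mul, map_one, hz] at h1
    have hj0 : j = 0 := h1
    rw [hj0, zpow_zero, mul_one] at h
    rw [hj, hj0, zpow_zero]
    have hn : n = 1 := Subtype.ext h
    rw [hn]
    rfl
  · intro g
    obtain ⟨j, hj⟩ : ∃ j : ℤ, φ g = Multiplicative.ofAdd j := ⟨Multiplicative.toAdd (φ g), rfl⟩
    have hm : g * (t ^ j)⁻¹ ∈ φ.ker := by
      rw [MonoidHom.mem_ker, map_mul, map_inv, hz, hj, mul_inv_cancel]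
    refine ⟨⟨⟨g * (t ^ j)⁻¹, hm⟩, FreeGroup.of 0 ^ j⟩, ?_⟩
    rw [hom_apply, map_zpow, FreeGroup.lift_apply_of]
    show g * (t ^ j)⁻¹ * t ^ j = g
    group

end ext

theorem reg_ext (hTSD : S_TSD) (hTRZ : S_TRZ) (hRIS : S_RIS) {R : Type} [Ring R] {G : Type}
    [Group G] (φ : G →* Multiplicative ℤ) (hφ : Function.Surjective φ)
    (h : Reg (MonoidAlgebra R φ.ker)) : Reg (MonoidAlgebra R G) := by
  obtain ⟨t, ht⟩ := hφ (Multiplicative.ofAdd 1)
  obtain ⟨inst, ⟨e1⟩⟩ := hTSD R φ.ker (FreeGroup (Fin 1)) (act φ t)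
  have h2 : Reg (SkewMonoidAlgebra (MonoidAlgebra R φ.ker) (FreeGroup (Fin 1))) := hTRZ _ h
  have h3 : Reg (MonoidAlgebra R (φ.ker ⋊[act φ t] FreeGroup (Fin 1))) := hRIS _ _ ⟨e1⟩ h2
  exact hRIS _ _ ⟨MonoidAlgebra.mapDomainRingEquiv R (MulEquiv.ofBijective _ (hom_bij φ t ht))⟩ h3

theorem reg_polyZ (hTSD : S_TSD) (hTRZ : S_TRZ) (hRIS : S_RIS) {R : Type} [Ring R] (hR : Reg R)
    {G : Type} [Group G] (h : PolyZ G) : Reg (MonoidAlgebra R G) := by
  induction h with
  | triv G h =>
    have : Unique G := ⟨⟨1⟩, fun _ => Subsingleton.elim _ _⟩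
    exact hRIS _ _ ⟨(MonoidAlgebra.uniqueRingEquiv (R := R) G).symm⟩ hR
  | ext G φ hφ h ih => exact reg_ext hTSD hTRZ hRIS φ hφ ih

/-- finitely generated torsion-free nilpotent groups -/
theorem reg_nil (hTSD : S_TSD) (hTRZ : S_TRZ) (hRIS : S_RIS) {R : Type} [Ring R] (hR : Reg R)
    {G : Type} [Group G] (hfg : Group.FG G) (hG : TF G) {c : ℕ}
    (h : Subgroup.upperCentralSeries G c = ⊤) : Reg (MonoidAlgebra R G) :=
  reg_polyZ hTSD hTRZ hRIS hR (polyZ_nil c G hfg hG h)

end Pool.Agent.L0h66.NL
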