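import Pool.Agent.L0h66.NL.Reg
import Pool.Agent.L0h36.SS.SUBG
import Pool.Agent.L0h26.SS.PUSH

/-! # Uniform vanishing for nilpotent groups of bounded class -/

set_option autoImplicit false
set_option linter.all false

open CategoryTheory

noncomputable section

namespace Pool.Agent.L0h66.NL

open Pool.Agent.Y75.NK Pool.Agent.L0h7.KN Pool.Agent.L0h7.RG Pool.Agent.L0h7.SS
open Pool.Agent.L0h7.TW (S_TSD S_TRZ)

/-- torsion-free nilpotent groups -/
theorem ktn (h1 : S_KNR) (hTSD : S_TSD) (hTRZ : S_TRZ) (hRIS : S_RIS) (R : Type) [Ring R]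
    (hR : Reg R) (P : GrpCat.{0}) (c : ℕ) (hc : Subgroup.upperCentralSeries P c = ⊤)
    (hP : TFr P) (m : ℕ) (x : (Kneg (m + 1)).obj ((gr R).obj P)) : x = 0 := by
  classical
  have key : ∀ e : Idem (MonoidAlgebra R ((EF (m + 1)).obj P)), kclass R (m + 1) P e = 0 := by
    intro e
    let T : Finset P := Finset.univ.biUnion fun i => Finset.univ.biUnion fun j =>
      (e.e i j).coeff.support.image (prj (m + 1) P)
    let H : Subgroup P := Subgroup.closure (T : Set P)
    have hs : SuppIn (H : Set P) e := by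
      intro i j z hz
      apply Subgroup.subset_closure
      rw [Finset.mem_coe, Finset.mem_biUnion]
      refine ⟨i, Finset.mem_univ _, ?_⟩
      rw [Finset.mem_biUnion]
      exact ⟨j, Finset.mem_univ _, Finset.mem_image_of_mem _ hz⟩
    obtain ⟨y, hy⟩ := Pool.Agent.L0h36.SS.t_SUBG Pool.Agent.L0h26.SS.t_PUSH R (m + 1) P H e hs
    have hfg : Group.FG H := by
      rw [Group.fg_iff_subgroup_fg]
      exact ⟨T, rfl⟩
    have hreg : Reg (MonoidAlgebra R H) := by
      refine reg_nil hTSD hTRZ hRIS hR hfg ?_ (c := c)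
        (ucs_of_injective H.subtype H.subtype_injective hc)
      intro g k hk hg
      apply Subtype.ext
      apply hP (g : P) k hk
      have := congrArg (Subtype.val) hg
      simpa using this
    have hy0 : y = 0 := h1 (MonoidAlgebra R H) hreg m y
    rw [← hy, hy0, map_zero]
  obtain ⟨e, f, hx⟩ := kclass_generate R (m + 1) P x
  rw [hx, key e, key f, sub_zero]

/-- the word of the iterated commutator -/
def wd (c : ℕ) : FreeGroup (Fin (c + 1)) :=
  cm (FreeGroup.of 0) (List.ofFn fun i : Fin c => FreeGroup.of i.succ)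

theorem hom_wd {c : ℕ} {Q : Type} [Group Q] (g : FreeGroup (Fin (c + 1)) →* Q) :
    g (wd c) = cm (g (FreeGroup.of 0)) (List.ofFn fun i : Fin c => g (FreeGroup.of i.succ)) := by
  unfold wd
  rw [map_cm, List.map_ofFn]
  rfl

/-- groups which are locally embeddable into nilpotent groups of class at most `c` -/
theorem nil_of_LE (hSUB : S_SUB) (c : ℕ) (G : GrpCat.{0}) (hG : TFr G)
    (h : LE (fun Q => Subgroup.upperCentralSeries Q c = ⊤) G) :
    Subgroup.upperCentralSeries G c = ⊤ := by
  classical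
  rw [eq_top_iff]
  intro x _
  rw [mem_iff]
  intro l hl
  let a : Fin (c + 1) → G := Fin.cons x (fun i : Fin c => l.get (Fin.cast hl.symm i))
  let f : fm (c + 1) ⟶ G := GrpCat.ofHom (FreeGroup.lift a)
  obtain ⟨Q, g, hQ, -, -, hE⟩ := hSUB _ G hG h (c + 1) f {wd c} 0
  have h1 : f.hom (wd c) = cm x l := by
    show FreeGroup.lift a (wd c) = _
    rw [hom_wd, FreeGroup.lift_apply_of]
    have h2 : (List.ofFn fun i : Fin c => FreeGroup.lift a (FreeGroup.of i.succ)) = l := by
      subst hl
      have h3 : (fun i : Fin l.length => FreeGroup.lift a (FreeGroup.of i.succ)) = l.get := by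
        funext i
        rw [FreeGroup.lift_apply_of]
        rfl
      rw [h3, List.ofFn_get]
    rw [h2]
    rfl
  have h4 : g.hom (wd c) = 1 := by
    rw [hom_wd]
    refine (mem_iff c _).1 ?_ _ (by rw [List.length_ofFn])
    rw [hQ]
    exact Subgroup.mem_top _
  rw [← h1]
  exact (hE (wd c) (Finset.mem_singleton_self _)).2 h4

/-- the uniform theorem -/
theorem uniform_nil (hM : S_MAIN) (hMNO : S_MNO) (hSUB : S_SUB) (h1 : S_KNR) (hTSD : S_TSD)
    (hTRZ : S_TRZ) (hRIS : S_RIS) (R : Type) [Ring R] (hR : Reg R) (c m n d : ℕ)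
    (M : Matrix (Fin d) (Fin d) (MonoidAlgebra R ((EF (m + 1)).obj (fm n)))) :
    ∃ L : ℕ, ∀ (G : GrpCat.{0}), Subgroup.upperCentralSeries G c = ⊤ → ∀ f : fm n ⟶ G,
      ev R (m + 1) M f * ev R (m + 1) M f = ev R (m + 1) M f → NoTors f L →
      Triv R (m + 1) M (toPG n (rels f L)) :=
  (hM (fun Q => Subgroup.upperCentralSeries Q c = ⊤) R (m + 1)).1
    (fun G hT hLE x => ktn h1 hTSD hTRZ hRIS R hR G c (nil_of_LE hSUB c G hT hLE) hT m x) n d M

end Pool.Agent.L0h66.NL
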